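import Pool.Agent.Y549.GM.Loc
import Pool.Agent.Y549.GM.Gen

/-!
# Values of the Gamma function at the points of algebraic curves, relative to the points and to arbitrary constants

Let `z_ji = y_ji(t_j)`, `i < p`, `j < n`, where the `y_ji` are algebraic functions of `t_j` such that for each `j` the
curve `(y_ji)_i` satisfies condition (H) as a tuple of functions: no `y_ji` is constant or in `ℚ y_jk + ℚ`, `k ≠ i`.
For instance `y_ji(t) = α_ji t + γ_ji` with complex `α_ji ≠ 0`, `γ_ji`. The parameters `t_j` are elements of a number field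
`F`, of height at most `T`. For all but few `n`-tuples of parameters the `n p` numbers `Γ(z_ji)` satisfy no relation, not
even an approximate one, of degree at most `d` whose coefficients are integer polynomials, over `F`, in values of rational
functions of the `t_j` and in arbitrary complex constants `ξ_1, …, ξ_g`, of degree at most `d` and height at most `T ^ A`.
If the `y_ji` are rational functions one can take them as these rational functions: then the coefficients are polynomials
in the numbers `z_ji` themselves, and the theorem says that up to any given degree and polynomially bounded height the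
`n p` numbers `Γ(z_ji)` are algebraically independent over `ℚ(z, ξ)`, which is more than the conjecture asks for.
-/

set_option autoImplicit false

open NumberField

namespace Pool.Agent.Results.MP_26ad15_nt.AlgebraicCurves

variable {n p q g : ℕ}

/-- The elements of the number field `F` with image in `L` which are quotients of two integers of `F` all of whose
conjugates have absolute value at most `T`. -/
def Points (F : Type) [Field F] [NumberField F] (ι : F →+* ℂ) (L : Set ℂ) (T : ℝ) : Set F :=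
  {x | ι x ∈ L ∧ ∃ a b : 𝓞 F, b ≠ 0 ∧ (∀ φ : F →+* ℂ, ‖φ a‖ ≤ T ∧ ‖φ b‖ ≤ T) ∧ x = a / b}

/-- The value of a polynomial with coefficients in the integers of `F` at the `n q + g` numbers `u_jk(t_j) / w_j(t_j)`
and `ξ_s`. -/
noncomputable def coefficient (F : Type) [Field F] (ι : F →+* ℂ) (u : Fin n → Fin q → Polynomial ℂ)
    (w : Fin n → Polynomial ℂ) (ξ : Fin g → ℂ) (t : Fin n → F) :
    MvPolynomial ((Fin n × Fin q) ⊕ Fin g) (𝓞 F) →+* ℂ :=
  MvPolynomial.eval₂Hom (ι.comp (algebraMap (𝓞 F) F))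
    (Sum.elim (fun x => (u x.1 x.2).eval (ι (t x.1)) / (w x.1).eval (ι (t x.1))) ξ)

/-- The `n`-tuples `t` of points `t_j` of `L_j` for which there is a polynomial `P` in `n p` variables, of degree at most
`d` in each variable, whose coefficients are values `coefficient c` of polynomials `c` of degree at most `d` in each
variable with coefficients all of whose conjugates are at most `T ^ A`, such that the value of `P` at the `n p` numbers
`Γ(y_ji(t_j))` is at most `T ^ (-B)` times the absolute value of some nonzero coefficient of `P`. -/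
def Exceptional (F : Type) [Field F] [NumberField F] (ι : F →+* ℂ) (d : ℕ) (y : Fin n → Fin p → ℂ → ℂ)
    (u : Fin n → Fin q → Polynomial ℂ) (w : Fin n → Polynomial ℂ) (ξ : Fin g → ℂ) (L : Fin n → Set ℂ) (A B T : ℝ) :
    Set (Fin n → F) :=
  {t | (∀ j, t j ∈ Points F ι (L j) T) ∧
    ∃ P : MvPolynomial (Fin n × Fin p) (MvPolynomial ((Fin n × Fin q) ⊕ Fin g) (𝓞 F)),
      (∀ x, P.degreeOf x ≤ d) ∧ (∀ e v, (P.coeff e).degreeOf v ≤ d) ∧
      (∀ e s (φ : F →+* ℂ), ‖φ ((P.coeff e).coeff s : 𝓞 F)‖ ≤ T ^ A) ∧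
      ∃ e₀, coefficient F ι u w ξ t (P.coeff e₀) ≠ 0 ∧
        ‖MvPolynomial.eval₂ (coefficient F ι u w ξ t) (fun x => Complex.Gamma (y x.1 x.2 (ι (t x.1)))) P‖ ≤
          T ^ (-B) * ‖coefficient F ι u w ξ t (P.coeff e₀)‖}

/-- For `j < n` let `Ω_j` be open and connected, `y_ji` (`i < p`) holomorphic on `Ω_j`, algebraic, not constant, `y_ji` not
in `ℚ y_jk + ℚ` for `i ≠ k`; `L_j ⊆ Ω_j` compact without points where some `y_ji` is a pole of `Γ`; `u_jk`, `w_j` complex
polynomials, `w_j` without zeros on `L_j`. For all `m`, `g`, `d`, `A` and `ε > 0` there are `B`, `C`, `T₀` such that for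
every number field `F` of degree at most `m`, every embedding of `F` in `ℂ`, all complex numbers `ξ_1, …, ξ_g` and all
`T ≥ T₀` the number of exceptional `n`-tuples is at most `C T^ε N^(n - 1)`, where `N` is the number of points of the
union of the `L_j`. -/
theorem result (m n p q g d : ℕ) (Ω : Fin n → Set ℂ) (hΩ : ∀ j, IsOpen (Ω j)) (hΩc : ∀ j, IsPreconnected (Ω j))
    (y : Fin n → Fin p → ℂ → ℂ) (hy : ∀ j i, DifferentiableOn ℂ (y j i) (Ω j))
    (halg : ∀ j i, ∃ Q : Polynomial (Polynomial ℂ), Q ≠ 0 ∧ ∀ t ∈ Ω j, Q.evalEval t (y j i t) = 0)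
    (hnc : ∀ j i, ∀ v : ℂ, ¬ ∀ t ∈ Ω j, y j i t = v)
    (hH : ∀ j i k, i ≠ k → ∀ a b : ℚ, ¬ ∀ t ∈ Ω j, y j i t = a * y j k t + b)
    (L : Fin n → Set ℂ) (hL : ∀ j, IsCompact (L j)) (hLΩ : ∀ j, L j ⊆ Ω j)
    (hLp : ∀ j, ∀ t ∈ L j, ∀ i, ∀ l : ℕ, y j i t ≠ -l)
    (u : Fin n → Fin q → Polynomial ℂ) (w : Fin n → Polynomial ℂ) (hw : ∀ j, ∀ t ∈ L j, (w j).eval t ≠ 0)
    (A ε : ℝ) (hε : 0 < ε) :
    ∃ B C T₀ : ℝ, ∀ (F : Type) [Field F] [NumberField F], Module.finrank ℚ F ≤ m →
      ∀ (ι : F →+* ℂ) (ξ : Fin g → ℂ) (T : ℝ), T₀ ≤ T → (Exceptional F ι d y u w ξ L A B T).Finite ∧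
        ((Exceptional F ι d y u w ξ L A B T).ncard : ℝ) ≤
          C * T ^ ε * ((Points F ι (⋃ j, L j) T).ncard : ℝ) ^ (n - 1) := by
  classical
  obtain ⟨B, C, T₀, hC, hT₀, H⟩ := Pool.Agent.Y549.GM.general m n p q g d
    (fun j i t => Complex.Gamma (y j i t)) L hL
    (fun j i t ht => by
      have h1 : DifferentiableOn ℂ (fun t => (Complex.Gamma (y j i t))⁻¹) (Ω j) := Pool.Agent.Y549.GM.diff_rg (hy j i)
      have h2 : AnalyticAt ℂ (fun t => (Complex.Gamma (y j i t))⁻¹) t := h1.analyticAt ((hΩ j).mem_nhds (hLΩ j ht))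
      have h3 := h2.inv (inv_ne_zero (Complex.Gamma_ne_zero (hLp j t ht i)))
      have h4 : (fun t => (Complex.Gamma (y j i t))⁻¹)⁻¹ = fun t => Complex.Gamma (y j i t) := by
        funext z
        simp
      rwa [h4] at h3)
    (fun j t ht => Pool.Agent.Y549.GM.locInd (Ω j) (hΩ j) (hΩc j) (y j) (hy j) (halg j) (hnc j) (hH j) t (hLΩ j ht)
      (hLp j t ht)) u w hw A ε hε
  refine ⟨B, C, T₀, fun F _ _ hF ι ξ T hT => ?_⟩
  have hT0 : 0 ≤ T := by linarith
  have hP : ∀ S : Set ℂ, Points F ι S T = {x : F | Pool.Agent.Y120.HtLe F T x ∧ ι x ∈ S} := by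
    intro S
    ext x
    constructor
    · rintro ⟨h1, a, b, hb, hab, hx⟩
      exact ⟨⟨a, b, hb, Pool.Agent.Y120.house_le F hT0 fun φ => (hab φ).1,
        Pool.Agent.Y120.house_le F hT0 fun φ => (hab φ).2, hx⟩, h1⟩
    · rintro ⟨⟨a, b, hb, ha, hb', hx⟩, h1⟩
      exact ⟨h1, a, b, hb, fun φ => ⟨(Pool.Agent.Y120.house_ge F _ φ).trans ha,
        (Pool.Agent.Y120.house_ge F _ φ).trans hb'⟩, hx⟩
  have hE : Exceptional F ι d y u w ξ L A B T =
      Pool.Agent.Y549.GM.Exc F ι d (fun j i t => Complex.Gamma (y j i t)) u w ξ L A B T := by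
    ext t
    simp only [Exceptional, Pool.Agent.Y549.GM.Exc, Set.mem_ofPred_eq, hP]
    rfl
  rw [hE, hP]
  exact H F hF ι ξ T hT

end Pool.Agent.Results.MP_26ad15_nt.AlgebraicCurves
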