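import Pool.Agent.TH814.GD.Ax

/-!
# A theorem of Ax-Schanuel type for the Gamma function, for every number of functions and variables

Let `f_1, …, f_n` be holomorphic functions on a connected open set `Ω` of a finite dimensional complex
vector space (for example of `ℂ ^ d`), none of them constant, no difference `f_i - f_j`, `i ≠ j`, equal
to a constant integer. Let `r` be the rank of their differentials at some point of `Ω` (for example the
generic rank, which is the largest one). Then among the `2 n` functions `f_i` and `Γ ∘ f_i` there are

  `min (n, r + 1) + r`

which are algebraically independent over `ℂ`. If `n ≤ r + 1` this is `n + r`, the lower bound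

  `tr.deg ℂ(f_1, …, f_n, Γ(f_1), …, Γ(f_n)) ≥ n + r`

of the Ax-Schanuel theorem, with the exponential function replaced by `Γ`. The functions are
arbitrary holomorphic functions; they are not supposed to be algebraic (the case of algebraic functions
is `AxLindemann`). In particular (`n = 2`, `r = 1`): if `f` and `g` are nonconstant and holomorphic on a
connected open set of `ℂ` and `f - g` is not a constant integer, then three of the functions
`f, g, Γ(f), Γ(g)` are algebraically independent over `ℂ`; and for `n = 3` functions of two variables of
rank two, five of the six functions are algebraically independent.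

The proof is in the starting library (`Pool/Agent/TH814`), where this theorem was not handed in: if
`ψ` is a function of `x_1, …, x_r` and both `ψ` and `Γ(ψ)` are algebraic over the field generated
by the `x_i` and the `Γ(x_i)`, one restricts to the lines parallel to the axes; there Stirling's formula
and the difference equation of `Γ` show, by an analysis of the asymptotic behaviour of the algebraic
functions over the field `ℂ(x, Γ(x))` on a half line, that `ψ` is constant or `ψ = x + m` with an
integer `m`.
-/

set_option autoImplicit false

namespace Pool.Agent.Results.MP_26ad15_nt.AxSchanuelCodimOne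

/-- **Ax-Schanuel theorem for the Gamma function in codimension one.** Among the `2 n` functions
`f_i`, `Γ ∘ f_i` there are `min (n, r + 1) + r` without a polynomial relation over `ℂ`: for every
nonzero polynomial `P` in that many variables there is a point `x` of `Ω`, at which no `f_i` is a pole
of `Γ`, such that the value of `P` at the chosen functions is not zero at `x`. -/
theorem result {E : Type} [NormedAddCommGroup E] [NormedSpace ℂ E] [FiniteDimensional ℂ E]
    {n r : ℕ} {Ω : Set E} (f : Fin n → E → ℂ) (hΩ : IsOpen Ω) (hp : IsPreconnected Ω)
    (hf : ∀ i, AnalyticOnNhd ℂ (f i) Ω) (hne : ∀ i, ∀ v : ℂ, ¬ ∀ x ∈ Ω, f i x = v)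
    (hd : ∀ i j, i ≠ j → ∀ m : ℤ, ¬ ∀ x ∈ Ω, f i x = f j x + m)
    (hr : ∃ x ∈ Ω, Module.finrank ℂ
      (Submodule.span ℂ (Set.range fun i => fderiv ℂ (f i) x)) = r) :
    ∃ e : Fin (min n (r + 1) + r) → Fin n ⊕ Fin n, Function.Injective e ∧
      ∀ P : MvPolynomial (Fin (min n (r + 1) + r)) ℂ, P ≠ 0 →
        ∃ x ∈ Ω, (∀ i, ∀ m : ℕ, f i x ≠ -m) ∧
          MvPolynomial.eval (fun k =>
            Sum.elim (fun i => f i x) (fun i => Complex.Gamma (f i x)) (e k)) P ≠ 0 :=
  Pool.Agent.TH814.GD.ax hΩ hp hf hne hd hr

end Pool.Agent.Results.MP_26ad15_nt.AxSchanuelCodimOne
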