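import Pool.Agent.Y776.Cv.GenK
import Pool.Agent.TH814.GD.Ax

/-!
# The conjecture for two points, at the points of arbitrary analytic curves

Let `f_1`, `f_2` be arbitrary analytic functions on a connected open set `U`, not constant, without values in
`{0, -1, -2, …}` and such that `f_1 - f_2` is not a constant integer. For the two numbers `f_1(x)`, `f_2(x)` the
conjecture says that (in general) at least two of the numbers `f_1(x)`, `f_2(x)`, `Γ(f_1(x))`, `Γ(f_2(x))` are
algebraically independent. We show that two fixed ones of these four functions of `x` do not satisfy any approximate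
relation of bounded degree and of height `T^A` for all `x` of height at most `T` in all number fields of degree at most
`m`, with the exception of `C T^ε` points. For `n` different curves the `2 n` numbers at the points `x_1, …, x_n` have
no such relation with the exception of `C T^ε N^(n-1)` tuples, where `N` is the number of points. The coefficients of
the relations are combinations of arbitrary complex numbers `ξ_1, …, ξ_g`.
-/

set_option autoImplicit false

open NumberField
open Pool.Agent

namespace Pool.Agent.Results.MP_26ad15_nt.TwoPointsOnAnalyticCurves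

/-- An analytic curve in `ℂ²`. -/
structure Curve (U : Set ℂ) (f : Fin 2 → ℂ → ℂ) : Prop where
  isOpen : IsOpen U
  isPreconnected : IsPreconnected U
  nonempty : U.Nonempty
  analytic : ∀ i, AnalyticOnNhd ℂ (f i) U
  /-- no poles of the Gamma function -/
  no_pole : ∀ i, ∀ z ∈ U, ∀ m : ℕ, f i z ≠ -m
  nonconstant : ∀ i, ∀ c : ℂ, ∃ z ∈ U, f i z ≠ c
  /-- the difference is not a constant integer -/
  difference : ∀ m : ℤ, ∃ z ∈ U, f 0 z - f 1 z ≠ m

/-- The values `f_1(z)`, `f_2(z)`, `Γ(f_1(z))`, `Γ(f_2(z))`. -/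
noncomputable def value (f : Fin 2 → ℂ → ℂ) (z : ℂ) : Fin 2 ⊕ Fin 2 → ℂ
  | Sum.inl i => f i z
  | Sum.inr i => Complex.Gamma (f i z)

/-- The elements of the number field `F` with image in `K` which are quotients of two integers of `F` all of whose
conjugates have absolute value at most `T`. -/
def Points (F : Type) [Field F] [NumberField F] (ι : F →+* ℂ) (K : Set ℂ) (T : ℝ) : Set F :=
  {x | ι x ∈ K ∧ ∃ a b : 𝓞 F, b ≠ 0 ∧ (∀ φ : F →+* ℂ, ‖φ a‖ ≤ T ∧ ‖φ b‖ ≤ T) ∧ x = a / b}

/-- The `n`-tuples `x` of points of `F`, the `j`-th one in `K j`, for which there is a polynomial `P` of degree at most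
`d` in each variable, with coefficients of the form `∑ ξ_i ι(c_i)`, where the `c_i` are integers of `F` all of whose
conjugates have absolute value at most `T ^ A`, such that the value of `P` at the numbers `v j (ι (x j)) i` is at most
`T ^ (-B)` times the absolute value of some nonzero coefficient of `P`. -/
def Exceptional (n d : ℕ) {g : ℕ} {J : Fin n → Type} (v : ∀ j, ℂ → J j → ℂ) (F : Type) [Field F] [NumberField F]
    (ι : F →+* ℂ) (ξ : Fin g → ℂ) (K : Fin n → Set ℂ) (A B T : ℝ) : Set (Fin n → F) :=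
  {x | (∀ j, x j ∈ Points F ι (K j) T) ∧ ∃ P : MvPolynomial (Σ j, J j) ℂ, (∀ y, P.degreeOf y ≤ d) ∧
    (∀ s, ∃ c : Fin g → 𝓞 F, (∀ i (φ : F →+* ℂ), ‖φ (c i)‖ ≤ T ^ A) ∧ P.coeff s = ∑ i, ξ i * ι (c i)) ∧
    ∃ s₀, P.coeff s₀ ≠ 0 ∧
      ‖MvPolynomial.aeval (fun y : Σ j, J j => v y.1 (ι (x y.1)) y.2) P‖ ≤ T ^ (-B) * ‖P.coeff s₀‖}

theorem value_an {U : Set ℂ} {f : Fin 2 → ℂ → ℂ} (h : Curve U f) (i : Fin 2 ⊕ Fin 2) :
    AnalyticOnNhd ℂ (fun z => value f z i) U := by
  rcases i with i | i
  · exact h.analytic i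
  · have h1 : DifferentiableOn ℂ (fun z => Complex.Gamma (f i z)) U := by
      intro z hz
      refine DifferentiableAt.differentiableWithinAt ?_
      exact DifferentiableAt.fun_comp' z (Complex.differentiableAt_Gamma _ fun m => h.no_pole i z hz m)
        (h.analytic i z hz).differentiableAt
    exact h1.analyticOnNhd h.isOpen

/-- three of the functions are independent, hence two of them are independent over the algebraic functions -/
theorem exists_two {U : Set ℂ} {f : Fin 2 → ℂ → ℂ} (h : Curve U f) :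
    ∃ e : Fin 2 → Fin 2 ⊕ Fin 2, Function.Injective e ∧
      ∀ t ∈ U, Y124.LocInd (fun k z => value f z (e k)) t := by
  have hr : ∃ x ∈ U, Module.finrank ℂ
      (Submodule.span ℂ (Set.range fun i => fderiv ℂ (f i) x)) = 1 := by
    obtain ⟨w, hw⟩ := h.nonempty
    obtain ⟨z, hz, hne⟩ := h.nonconstant 0 (f 0 w)
    have h1 : ∃ x ∈ U, deriv (f 0) x ≠ 0 := by
      by_contra hcon
      push Not at hcon
      exact hne (h.isOpen.is_const_of_deriv_eq_zero h.isPreconnected
        (fun x hx => ((h.analytic 0) x hx).differentiableAt.differentiableWithinAt)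
        (fun x hx => hcon x hx) hz hw)
    obtain ⟨x, hx, hx0⟩ := h1
    refine ⟨x, hx, ?_⟩
    have h2 : Module.finrank ℂ (ℂ →L[ℂ] ℂ) = 1 := by
      have e : (ℂ →L[ℂ] ℂ) ≃ₗ[ℂ] ℂ :=
        (LinearMap.toContinuousLinearMap (𝕜 := ℂ) (E := ℂ) (F' := ℂ)).symm.trans (LinearMap.ringLmapEquivSelf ℂ ℂ ℂ)
      rw [e.finrank_eq, Module.finrank_self]
    have : Module.Finite ℂ (ℂ →L[ℂ] ℂ) := Module.finite_of_finrank_pos (by rw [h2]; exact one_pos)
    apply le_antisymm
    · exact (Submodule.finrank_le _).trans h2.le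
    · rw [Nat.one_le_iff_ne_zero]
      intro h0
      have h3 := Submodule.finrank_eq_zero.1 h0
      have h4 : fderiv ℂ (f 0) x ∈ Submodule.span ℂ (Set.range fun i => fderiv ℂ (f i) x) :=
        Submodule.subset_span ⟨0, rfl⟩
      rw [h3, Submodule.mem_bot] at h4
      apply hx0
      rw [← fderiv_apply_one_eq_deriv, h4]
      rfl
  have hd : ∀ i j : Fin 2, i ≠ j → ∀ m : ℤ, ¬ ∀ x ∈ U, f i x = f j x + m := by
    intro i j hij m hcon
    fin_cases i <;> fin_cases j
    · exact hij rfl
    · obtain ⟨z, hz, hne⟩ := h.difference m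
      apply hne
      have h1 := hcon z hz
      simp only [Fin.zero_eta, Fin.mk_one] at h1
      rw [h1]
      ring
    · obtain ⟨z, hz, hne⟩ := h.difference (-m)
      apply hne
      have h1 := hcon z hz
      simp only [Fin.zero_eta, Fin.mk_one] at h1
      rw [h1]
      push_cast
      ring
    · exact hij rfl
  have hv : ∀ z k, Sum.elim (fun i => f i z) (fun i => Complex.Gamma (f i z)) k = value f z k := by
    rintro z (i | i) <;> rfl
  have hax : ∃ e : Fin 3 → Fin 2 ⊕ Fin 2, Function.Injective e ∧ ∀ P : MvPolynomial (Fin 3) ℂ, P ≠ 0 →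
      ∃ x ∈ U, (∀ i, ∀ m : ℕ, f i x ≠ -m) ∧ MvPolynomial.eval (fun k =>
        Sum.elim (fun i => f i x) (fun i => Complex.Gamma (f i x)) (e k)) P ≠ 0 :=
    TH814.GD.ax (f := f) h.isOpen h.isPreconnected h.analytic
      (fun i v hcon => by
        obtain ⟨z, hz, hne⟩ := h.nonconstant i v
        exact hne (hcon z hz)) hd hr
  obtain ⟨e, he, H⟩ := hax
  obtain ⟨e', he', hL⟩ := Y776.Cv.func_sub h.isOpen h.isPreconnected h.nonempty
    (y := fun k z => value f z (e k)) (fun k => value_an h (e k)) (fun P hP => by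
      by_contra hne
      obtain ⟨x, hx, -, hx0⟩ := H P hne
      apply hx0
      have h1 := hP x hx
      simp only [hv]
      exact h1) (N := 2) (by
      rw [Fintype.card_fin])
  exact ⟨fun k => e (e' k), he.comp he', hL⟩

/-- For `n` curves (equal or different) one can choose, for each `j`, two of the four functions such that for all
compact sets `K_j` in `U_j` and all `m`, `g`, `d`, `A` and `ε > 0` there are `B`, `C`, `T₀` such that for every number
field `F` of degree at most `m`, every embedding of `F` in `ℂ`, all complex numbers `ξ_1, …, ξ_g` and all `T ≥ T₀` the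
number of `n`-tuples which are exceptional for the chosen functions is at most `C T^ε N^(n - 1)`, where `N` is the
number of points in the union of the `K_j`. -/
theorem result {n : ℕ} (U : Fin n → Set ℂ) (f : ∀ _ : Fin n, Fin 2 → ℂ → ℂ) (hU : ∀ j, Curve (U j) (f j)) :
    ∃ e : ∀ _ : Fin n, Fin 2 → Fin 2 ⊕ Fin 2, (∀ j, Function.Injective (e j)) ∧
      ∀ K : Fin n → Set ℂ, (∀ j, IsCompact (K j)) → (∀ j, K j ⊆ U j) → ∀ (m g d : ℕ) (A ε : ℝ), 0 < ε →
        ∃ B C T₀ : ℝ, ∀ (F : Type) [Field F] [NumberField F], Module.finrank ℚ F ≤ m → ∀ (ι : F →+* ℂ)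
          (ξ : Fin g → ℂ) (T : ℝ), T₀ ≤ T →
          (Exceptional n d (fun j z k => value (f j) z (e j k)) F ι ξ K A B T).Finite ∧
            ((Exceptional n d (fun j z k => value (f j) z (e j k)) F ι ξ K A B T).ncard : ℝ) ≤
              C * T ^ ε * ((Points F ι (⋃ j, K j) T).ncard : ℝ) ^ (n - 1) := by
  classical
  choose e he hL using fun j => exists_two (hU j)
  refine ⟨e, he, ?_⟩
  intro K hK hKU m g d A ε hε
  obtain ⟨B, C, T₀, hC, hT₀, H⟩ := Y776.Cv.nf_genSK (η := Fin g) m n d
    (fun j => (hU j).isOpen) (fun j => (hU j).isPreconnected)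
    (y := fun j k z => value (f j) z (e j k))
    (fun j k => value_an (hU j) (e j k)) (fun j => hL j) hK hKU (S := ⋃ j, K j)
    (fun j => Set.subset_iUnion K j) A ε hε
  refine ⟨B, C, T₀, fun F _ _ hm ι ξ T hT => ?_⟩
  have hT0 : 0 ≤ T := by linarith
  have hP : ∀ L : Set ℂ, Points F ι L T = {x : F | Y120.HtLe F T x ∧ ι x ∈ L} := by
    intro L
    ext x
    constructor
    · rintro ⟨h1, a, b, hb, hab, hx⟩
      exact ⟨⟨a, b, hb, Y120.house_le F hT0 fun φ => (hab φ).1, Y120.house_le F hT0 fun φ => (hab φ).2, hx⟩, h1⟩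
    · rintro ⟨⟨a, b, hb, ha, hb', hx⟩, h1⟩
      exact ⟨h1, a, b, hb, fun φ => ⟨(Y120.house_ge F _ φ).trans ha, (Y120.house_ge F _ φ).trans hb'⟩, hx⟩
  have key := H F hm ι ξ T hT
    (Exceptional n d (fun j z k => value (f j) z (e j k)) F ι ξ K A B T) (by
    rintro x ⟨hx, P, hPd, hPc, s₀, hs₀, hs⟩
    refine ⟨fun j => ?_, P, hPd, hPc, s₀, hs₀, hs⟩
    have h1 := hx j
    rw [hP] at h1
    exact h1)
  rw [hP]
  exact key

end Pool.Agent.Results.MP_26ad15_nt.TwoPointsOnAnalyticCurves
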